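import Pool.Agent.Y157.PS.Defs

/-!
# The tower of halves: one step
-/

set_option autoImplicit false

open FF Pool.Agent.Y157.PS

namespace Pool.Agent.Zk90.HT

variable {κ M : Type} [Field κ] [Field M] [Algebra κ M]

/-- the elements of the maximal ideal -/
def Sm (W : Place κ M) (z : M) : Prop := z = 0 ∨ 0 < W.ord z

/-- the elements which are congruent to one -/
def Cl (W : Place κ M) (u : M) : Prop := Sm W (u - 1)

variable {W : Place κ M}

lemma ne_zero_of_ord {z : M} (h : W.ord z ≠ 0) : z ≠ 0 := by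
  rintro rfl
  exact h W.ord_zero

lemma Sm.add {z w : M} (hz : Sm W z) (hw : Sm W w) : Sm W (z + w) := by
  rcases hz with rfl | hz
  · rwa [zero_add]
  rcases hw with rfl | hw
  · rw [add_zero]
    exact Or.inr hz
  by_cases h : z + w = 0
  · exact Or.inl h
  · right
    have := W.ord_add (ne_zero_of_ord hz.ne') (ne_zero_of_ord hw.ne') h
    have h2 := lt_min hz hw
    omega

lemma Sm.neg {z : M} (hz : Sm W z) : Sm W (-z) := by
  rcases hz with rfl | hz
  · left; rw [neg_zero]
  · right; rwa [W.ord_neg]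

lemma Sm.mul_reg {z u : M} (hz : Sm W z) (hu : W.Reg u) : Sm W (z * u) := by
  rcases hz with rfl | hz
  · left; rw [zero_mul]
  by_cases h : u = 0
  · left; rw [h, mul_zero]
  · right
    rw [W.ord_mul (ne_zero_of_ord hz.ne') h]
    have := (W.reg_iff h).1 hu
    omega

lemma algMap_ne {c : κ} (hc : c ≠ 0) : algebraMap κ M c ≠ 0 := by
  rwa [Ne, map_eq_zero]

lemma not_sm_const {c : κ} (hc : c ≠ 0) : ¬ Sm W (algebraMap κ M c) := by
  rintro (h | h)
  · exact algMap_ne hc h
  · rw [W.ord_const hc] at h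
    exact lt_irrefl _ h

/-- elements near to a nonzero constant are units -/
lemma ord_of_near {c : κ} (hc : c ≠ 0) {u : M} (h : Sm W (u - algebraMap κ M c)) :
    u ≠ 0 ∧ W.ord u = 0 := by
  rcases h with h | h
  · rw [sub_eq_zero] at h
    rw [h]
    exact ⟨algMap_ne hc, W.ord_const hc⟩
  · have h1 := W.ord_add_eq (f := algebraMap κ M c) (g := u - algebraMap κ M c) (algMap_ne hc)
      (ne_zero_of_ord h.ne') (by rw [W.ord_const hc]; exact h)
    rw [add_sub_cancel, W.ord_const hc] at h1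
    exact h1

/-- quotients of elements near to the same nonzero constant are near to one -/
lemma cl_div {c : κ} (hc : c ≠ 0) {u v : M} (hu : Sm W (u - algebraMap κ M c))
    (hv : Sm W (v - algebraMap κ M c)) : Cl W (u / v) := by
  obtain ⟨hv0, hv1⟩ := ord_of_near hc hv
  have h1 : Sm W (u - v) := by
    have := hu.add hv.neg
    have e : u - algebraMap κ M c + -(v - algebraMap κ M c) = u - v := by ring
    rwa [e] at this
  have h2 : u / v - 1 = (u - v) * v⁻¹ := by
    field_simp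
  rw [Cl, h2]
  exact h1.mul_reg (Or.inr (by rw [W.ord_inv, hv1]; simp))

lemma Cl.ne_zero {u : M} (h : Cl W u) : u ≠ 0 := by
  have h1 : Sm W (u - algebraMap κ M 1) := by rw [map_one]; exact h
  exact (ord_of_near one_ne_zero h1).1

lemma Cl.of_sq {u : M} (h : Cl W (u ^ 2)) : Cl W u ∨ Cl W (-u) := by
  by_cases h1 : u - 1 = 0
  · left; left; exact h1
  by_cases h2 : -u - 1 = 0
  · right; left; exact h2
  have e : u ^ 2 - 1 = -((u - 1) * (-u - 1)) := by ring
  have h3 : u ^ 2 - 1 ≠ 0 := by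
    rw [e, Ne, neg_eq_zero]
    exact mul_ne_zero h1 h2
  rcases h with h | h
  · exact (h3 h).elim
  rw [e, W.ord_neg, W.ord_mul h1 h2] at h
  rcases lt_or_ge 0 (W.ord (u - 1)) with h4 | h4
  · left; right; exact h4
  · right; right; omega

lemma Cl.not_neg [CharZero κ] {u : M} (h : Cl W u) (h' : Cl W (-u)) : False := by
  have h1 := Sm.add h h'
  have e : u - 1 + (-u - 1) = algebraMap κ M (-2) := by
    rw [map_neg, map_ofNat]
    ring
  rw [e] at h1
  exact not_sm_const (by norm_num) h1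

lemma Cl.map {u : M} (h : Cl W u) {τ : M ≃+* M} (hτ : Fixes W τ) : Cl W (τ u) := by
  have e : τ u - 1 = τ (u - 1) := by rw [map_sub, map_one]
  rw [Cl, e]
  rcases h with h | h
  · left; rw [h, map_zero]
  · right
    have := hτ (u - 1)
    rw [this]
    exact h

/-- the choice of the sign -/
lemma exists_sign {A B : M} (hA : A ≠ 0) (h : Cl W (B ^ 2 / A ^ 2)) :
    ∃ B' : M, B' ^ 2 = B ^ 2 ∧ Cl W (B' / A) := by
  have h1 : Cl W ((B / A) ^ 2) := by rwa [div_pow]
  rcases h1.of_sq with h2 | h2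
  · exact ⟨B, rfl, h2⟩
  · refine ⟨-B, by ring, ?_⟩
    rwa [neg_div]

/-- an automorphism which fixes the squares of `A`, `B`, the place, where `B / A` is near to one,
fixes `B / A` -/
lemma fix_ratio [CharZero κ] {A B : M} (hA : A ≠ 0) (h : Cl W (B / A)) {τ : M ≃+* M}
    (hτ : Fixes W τ) (h1 : τ (A ^ 2) = A ^ 2) (h2 : τ (B ^ 2) = B ^ 2) : τ (B / A) = B / A := by
  have h3 : τ (B / A) ^ 2 = (B / A) ^ 2 := by
    rw [← map_pow, div_pow, map_div₀, h1, h2]
  rcases sq_eq_sq_iff_eq_or_eq_neg.1 h3 with h4 | h4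
  · exact h4
  · exfalso
    have h5 := h.map hτ
    rw [h4] at h5
    exact h.not_neg h5

/-- the orders of `α + β` -/
lemma ord_sum [CharZero κ] (V : Place κ M) {α β : M} {d : κ} (hd : d ≠ 0)
    (h : α ^ 2 - β ^ 2 = algebraMap κ M d) :
    (V.Reg α ∧ V.ord (α + β) = 0) ∨
      (V.ord α < 0 ∧ (V.ord (α + β) = V.ord α ∨ V.ord (α + β) = -V.ord α)) := by
  have hprod : (α + β) * (α - β) = algebraMap κ M d := by rw [← h]; ring
  have hne : (α + β) * (α - β) ≠ 0 := by rw [hprod]; exact algMap_ne hd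
  have h1 : α + β ≠ 0 := left_ne_zero_of_mul hne
  have h2 : α - β ≠ 0 := right_ne_zero_of_mul hne
  have h3 : V.ord (α + β) + V.ord (α - β) = 0 := by
    rw [← V.ord_mul h1 h2, hprod, V.ord_const hd]
  by_cases hα : V.Reg α
  · left
    refine ⟨hα, ?_⟩
    have hβ : V.Reg β := by
      by_cases hβ0 : β = 0
      · left; exact hβ0
      · by_contra hβ
        have h4 : V.ord β < 0 := by
          by_contra h5
          exact hβ ((V.reg_iff hβ0).2 (by omega))
        -- `α ^ 2 = d + β ^ 2` has a pole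
        have h5 := V.ord_add_eq (f := β ^ 2) (g := algebraMap κ M d) (pow_ne_zero 2 hβ0)
          (algMap_ne hd) (by rw [V.ord_pow, V.ord_const hd]; push_cast; omega)
        have e : β ^ 2 + algebraMap κ M d = α ^ 2 := by rw [← h]; ring
        rw [e, V.ord_pow, V.ord_pow] at h5
        have hα0 : α ≠ 0 := fun h0 => h5.1 (by rw [h0]; ring)
        have := (V.reg_iff hα0).1 hα
        have h6 := h5.2
        push_cast at h6
        omega
    have h4 := (V.reg_iff h1).1 (V.reg_add hα hβ)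
    have h5 : 0 ≤ V.ord (α - β) := by
      refine (V.reg_iff h2).1 ?_
      rw [sub_eq_add_neg]
      exact V.reg_add hα (V.reg_neg hβ)
    omega
  · right
    have hα0 : α ≠ 0 := fun h0 => hα (Or.inl h0)
    have h4 : V.ord α < 0 := by
      by_contra h5
      exact hα ((V.reg_iff hα0).2 (by omega))
    refine ⟨h4, ?_⟩
    have h5 := V.ord_add_eq (f := α ^ 2) (g := -algebraMap κ M d) (pow_ne_zero 2 hα0)
      (neg_ne_zero.2 (algMap_ne hd)) (by rw [V.ord_pow, V.ord_neg, V.ord_const hd]; push_cast; omega)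
    have e : α ^ 2 + -algebraMap κ M d = β ^ 2 := by rw [← h]; ring
    rw [e, V.ord_pow, V.ord_pow] at h5
    have hβ0 : β ≠ 0 := fun h0 => h5.1 (by rw [h0]; ring)
    have hβ : V.ord β = V.ord α := by
      have := h5.2
      push_cast at this
      omega
    -- both are at least `ord α`, and `2 α` is their sum
    have h6 := V.ord_add hα0 hβ0 h1
    have h7 := V.ord_sub hα0 hβ0 h2
    rw [hβ, min_self] at h6 h7
    have h8 : (α + β) + (α - β) = algebraMap κ M 2 * α := by
      rw [map_ofNat]; ring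
    have h9 : (α + β) + (α - β) ≠ 0 := by
      rw [h8]
      exact mul_ne_zero (algMap_ne two_ne_zero) hα0
    have h10 := V.ord_add h1 h2 h9
    rw [h8, V.ord_mul (algMap_ne two_ne_zero) hα0, V.ord_const two_ne_zero, zero_add] at h10
    rcases le_total (V.ord (α + β)) (V.ord (α - β)) with h11 | h11
    · rw [min_eq_left h11] at h10
      left; omega
    · rw [min_eq_right h11] at h10
      right; omega

lemma even_ord [CharZero κ] (V : Place κ M) {α β γ : M} {d d' : κ} (hd : d ≠ 0) (hd' : d' ≠ 0)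
    (h : α ^ 2 - β ^ 2 = algebraMap κ M d) (h' : α ^ 2 - γ ^ 2 = algebraMap κ M d') :
    (2 : ℤ) ∣ V.ord ((α + β) * (α + γ)) := by
  have ne : ∀ {β : M} {d : κ}, d ≠ 0 → α ^ 2 - β ^ 2 = algebraMap κ M d → α + β ≠ 0 := by
    intro β d hd h h0
    have : α ^ 2 - β ^ 2 = (α + β) * (α - β) := by ring
    rw [this, h0, zero_mul] at h
    exact algMap_ne hd h.symm
  rw [V.ord_mul (ne hd h) (ne hd' h')]
  rcases ord_sum V hd h with ⟨h1, h2⟩ | ⟨h1, h2⟩ <;> rcases ord_sum V hd' h' with ⟨h3, h4⟩ | ⟨h3, h4⟩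
  · omega
  · exfalso
    have := (V.reg_iff (ne_zero_of_ord h3.ne)).1 h1
    omega
  · exfalso
    have := (V.reg_iff (ne_zero_of_ord h1.ne)).1 h3
    omega
  · omega

/-- **one step** -/
theorem step [CharZero κ] (W : Place κ M)
    (root : ∀ g : M, g ≠ 0 → (∀ V : Place κ M, (2 : ℤ) ∣ V.ord g) → ∃ h : M, h ^ 2 = g)
    {a b c : κ} (hab : a ≠ b) (hbc : b ≠ c) (hac : a ≠ c) {X α β γ : M}
    (hα : α ^ 2 = X - algebraMap κ M a) (hβ : β ^ 2 = X - algebraMap κ M b)
    (hγ : γ ^ 2 = X - algebraMap κ M c) (hX : W.ord X < 0) (h1 : Cl W (β / α))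
    (h2 : Cl W (γ / α)) :
    ∃ A B C : M, A ^ 2 = X + α * β + β * γ + γ * α - algebraMap κ M a ∧
      B ^ 2 = X + α * β + β * γ + γ * α - algebraMap κ M b ∧
      C ^ 2 = X + α * β + β * γ + γ * α - algebraMap κ M c ∧
      W.ord (X + α * β + β * γ + γ * α) < 0 ∧ Cl W (B / A) ∧ Cl W (C / A) ∧
      ∀ τ : M ≃+* M, Fixes W τ → τ α = α → τ β = β → τ γ = γ → τ A = A ∧ τ B = B ∧ τ C = C := by
  have dab : α ^ 2 - β ^ 2 = algebraMap κ M (b - a) := by rw [hα, hβ, map_sub]; ring
  have dac : α ^ 2 - γ ^ 2 = algebraMap κ M (c - a) := by rw [hα, hγ, map_sub]; ring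
  have dba : β ^ 2 - α ^ 2 = algebraMap κ M (a - b) := by rw [hα, hβ, map_sub]; ring
  have dbc : β ^ 2 - γ ^ 2 = algebraMap κ M (c - b) := by rw [hβ, hγ, map_sub]; ring
  have dca : γ ^ 2 - α ^ 2 = algebraMap κ M (a - c) := by rw [hα, hγ, map_sub]; ring
  have dcb : γ ^ 2 - β ^ 2 = algebraMap κ M (b - c) := by rw [hβ, hγ, map_sub]; ring
  have ne : ∀ {u v : M} {d : κ}, d ≠ 0 → u ^ 2 - v ^ 2 = algebraMap κ M d → u + v ≠ 0 := by
    intro u v d hd h h0
    have : u ^ 2 - v ^ 2 = (u + v) * (u - v) := by ring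
    rw [this, h0, zero_mul] at h
    exact algMap_ne hd h.symm
  have n1 : α + β ≠ 0 := ne (sub_ne_zero.2 hab.symm) dab
  have n2 : α + γ ≠ 0 := ne (sub_ne_zero.2 hac.symm) dac
  have n3 : β + γ ≠ 0 := ne (sub_ne_zero.2 hbc.symm) dbc
  obtain ⟨A, hA⟩ := root ((α + β) * (α + γ)) (mul_ne_zero n1 n2)
    (fun V => even_ord V (sub_ne_zero.2 hab.symm) (sub_ne_zero.2 hac.symm) dab dac)
  obtain ⟨B₀, hB₀⟩ := root ((β + α) * (β + γ)) (mul_ne_zero (by rwa [add_comm]) n3)
    (fun V => even_ord V (sub_ne_zero.2 hab) (sub_ne_zero.2 hbc.symm) dba dbc)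
  obtain ⟨C₀, hC₀⟩ := root ((γ + α) * (γ + β))
    (mul_ne_zero (by rwa [add_comm]) (by rwa [add_comm]))
    (fun V => even_ord V (sub_ne_zero.2 hac) (sub_ne_zero.2 hbc) dca dcb)
  have hA0 : A ≠ 0 := by
    rintro rfl
    exact mul_ne_zero n1 n2 (by rw [← hA]; ring)
  have hα0 : α ≠ 0 := by
    rintro rfl
    exact h1.ne_zero (by rw [div_zero])
  have two : ∀ {u v : M}, Cl W u → Cl W v → Sm W (u + v - algebraMap κ M 2) := by
    intro u v hu hv
    have e : u + v - algebraMap κ M 2 = (u - 1) + (v - 1) := by rw [map_ofNat]; ring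
    rw [e]
    exact Sm.add hu hv
  have c1 : Cl W (1 : M) := by left; ring
  have s1 : Sm W (1 + β / α - algebraMap κ M 2) := two c1 h1
  have s2 : Sm W (1 + γ / α - algebraMap κ M 2) := two c1 h2
  have s3 : Sm W (β / α + γ / α - algebraMap κ M 2) := two h1 h2
  have hBA : Cl W (B₀ ^ 2 / A ^ 2) := by
    have e : B₀ ^ 2 / A ^ 2 = (β / α + γ / α) / (1 + γ / α) := by
      rw [hA, hB₀]
      have n2' : 1 + γ / α ≠ 0 := (ord_of_near two_ne_zero s2).1
      field_simp
      ring
    rw [e]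
    exact cl_div two_ne_zero s3 s2
  have hCA : Cl W (C₀ ^ 2 / A ^ 2) := by
    have e : C₀ ^ 2 / A ^ 2 = (β / α + γ / α) / (1 + β / α) := by
      rw [hA, hC₀]
      have n2' : 1 + β / α ≠ 0 := (ord_of_near two_ne_zero s1).1
      field_simp
      ring
    rw [e]
    exact cl_div two_ne_zero s3 s1
  obtain ⟨B₁, hB₁, hB₁'⟩ := exists_sign hA0 hBA
  obtain ⟨C₁, hC₁, hC₁'⟩ := exists_sign hA0 hCA
  -- the product
  have hsq : (A * B₁ * C₁) ^ 2 = ((α + β) * (β + γ) * (γ + α)) ^ 2 := by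
    rw [mul_pow, mul_pow, hB₁, hC₁, hA, hB₀, hC₀]
    ring
  have hprod : ∃ s : M, (s = 1 ∨ s = -1) ∧
      (s * A) * (s * B₁) * (s * C₁) = (α + β) * (β + γ) * (γ + α) := by
    rcases sq_eq_sq_iff_eq_or_eq_neg.1 hsq with h | h
    · exact ⟨1, Or.inl rfl, by rw [one_mul, one_mul, one_mul, h]⟩
    · refine ⟨-1, Or.inr rfl, ?_⟩
      have : -1 * A * (-1 * B₁) * (-1 * C₁) = -(A * B₁ * C₁) := by ring
      rw [this, h, neg_neg]
  obtain ⟨s, hs, hs'⟩ := hprod
  have hs2 : s ^ 2 = 1 := by rcases hs with rfl | rfl <;> ring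
  have hs0 : s ≠ 0 := by
    rintro rfl
    norm_num at hs2
  have rat : ∀ z : M, (s * z) / (s * A) = z / A := fun z => mul_div_mul_left z A hs0
  have hA' : (s * A) ^ 2 = X + α * β + β * γ + γ * α - algebraMap κ M a := by
    rw [mul_pow, hs2, one_mul, hA]
    linear_combination hα
  have hB' : (s * B₁) ^ 2 = X + α * β + β * γ + γ * α - algebraMap κ M b := by
    rw [mul_pow, hs2, one_mul, hB₁, hB₀]
    linear_combination hβ
  have hC' : (s * C₁) ^ 2 = X + α * β + β * γ + γ * α - algebraMap κ M c := by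
    rw [mul_pow, hs2, one_mul, hC₁, hC₀]
    linear_combination hγ
  refine ⟨s * A, s * B₁, s * C₁, hA', hB', hC', ?_, by rwa [rat], by rwa [rat], ?_⟩
  · -- the pole
    have hαo : W.ord α < 0 := by
      have hX0 : X ≠ 0 := ne_zero_of_ord hX.ne
      have h3 : W.ord (α ^ 2) < 0 := by
        rw [hα]
        by_cases ha : a = 0
        · rw [ha, map_zero, sub_zero]
          exact hX
        · have h4 := W.ord_add_eq (f := X) (g := -algebraMap κ M a) hX0
            (neg_ne_zero.2 (algMap_ne ha)) (by rw [W.ord_neg, W.ord_const ha]; exact hX)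
          rw [← sub_eq_add_neg] at h4
          rw [h4.2]
          exact hX
      rw [W.ord_pow] at h3
      push_cast at h3
      omega
    have hAo : W.ord (A ^ 2) < 0 := by
      have e : A ^ 2 = α ^ 2 * ((1 + β / α) * (1 + γ / α)) := by
        rw [hA]
        field_simp
      obtain ⟨p1, p2⟩ := ord_of_near two_ne_zero s1
      obtain ⟨p3, p4⟩ := ord_of_near two_ne_zero s2
      rw [e, W.ord_mul (pow_ne_zero 2 hα0) (mul_ne_zero p1 p3), W.ord_mul p1 p3, p2, p4, W.ord_pow]
      push_cast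
      omega
    have hA2 : A ^ 2 ≠ 0 := pow_ne_zero 2 hA0
    have e : X + α * β + β * γ + γ * α = A ^ 2 + algebraMap κ M a := by
      rw [hA]
      linear_combination -hα
    rw [e]
    by_cases ha : a = 0
    · rw [ha, map_zero, add_zero]
      exact hAo
    · have h4 := W.ord_add_eq (f := A ^ 2) (g := algebraMap κ M a) hA2 (algMap_ne ha)
        (by rw [W.ord_const ha]; exact hAo)
      rw [h4.2]
      exact hAo
  · intro τ hτ tα tβ tγ
    have hτs : τ s = s := by
      rcases hs with rfl | rfl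
      · exact map_one τ
      · rw [map_neg, map_one]
    have tA2 : τ ((s * A) ^ 2) = (s * A) ^ 2 := by
      have e : (s * A) ^ 2 = (α + β) * (α + γ) := by rw [mul_pow, hs2, one_mul, hA]
      rw [e, map_mul, map_add, map_add, tα, tβ, tγ]
    have tB2 : τ ((s * B₁) ^ 2) = (s * B₁) ^ 2 := by
      have e : (s * B₁) ^ 2 = (β + α) * (β + γ) := by rw [mul_pow, hs2, one_mul, hB₁, hB₀]
      rw [e, map_mul, map_add, map_add, tα, tβ, tγ]
    have tC2 : τ ((s * C₁) ^ 2) = (s * C₁) ^ 2 := by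
      have e : (s * C₁) ^ 2 = (γ + α) * (γ + β) := by rw [mul_pow, hs2, one_mul, hC₁, hC₀]
      rw [e, map_mul, map_add, map_add, tα, tβ, tγ]
    have hsA0 : s * A ≠ 0 := mul_ne_zero hs0 hA0
    have r1 := fix_ratio hsA0 (by rwa [rat] : Cl W ((s * B₁) / (s * A))) hτ tA2 tB2
    have r2 := fix_ratio hsA0 (by rwa [rat] : Cl W ((s * C₁) / (s * A))) hτ tA2 tC2
    have hP0 : (s * A) * (s * B₁) * (s * C₁) ≠ 0 := by
      rw [hs']
      exact mul_ne_zero (mul_ne_zero n1 n3) (by rwa [add_comm])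
    have hP : τ ((s * A) * (s * B₁) * (s * C₁)) = (s * A) * (s * B₁) * (s * C₁) := by
      rw [hs', map_mul, map_mul, map_add, map_add, map_add, tα, tβ, tγ]
    set A' := s * A with hA'd
    set B' := s * B₁ with hB'd
    set C' := s * C₁ with hC'd
    have hB'' : B' = (B' / A') * A' := by field_simp
    have hC'' : C' = (C' / A') * A' := by field_simp
    have key : τ A' = A' := by
      rcases sq_eq_sq_iff_eq_or_eq_neg.1 (by rw [← map_pow, tA2] : τ A' ^ 2 = A' ^ 2) with h | h
      · exact h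
      · exfalso
        have hb : τ B' = -B' := by
          rw [hB'', map_mul, r1, h]
          field_simp
        have hc : τ C' = -C' := by
          rw [hC'', map_mul, r2, h]
          field_simp
        rw [map_mul, map_mul, h, hb, hc] at hP
        have h5 : (2 : M) * (A' * B' * C') = 0 := by linear_combination -hP
        have h6 : (2 : M) ≠ 0 := by
          have := algMap_ne (κ := κ) (M := M) (c := 2) two_ne_zero
          rwa [map_ofNat] at this
        exact (mul_ne_zero h6 hP0) h5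
    refine ⟨key, ?_, ?_⟩
    · rw [hB'', map_mul, r1, key]
    · rw [hC'', map_mul, r2, key]

end Pool.Agent.Zk90.HT
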