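import Pool.Agent.Zk12.HT.Stm
import Pool.Agent.Zk90.HT.Step

/-!
# The tower of halves (part A of project HT)
-/

set_option autoImplicit false

open Polynomial FF Pool.Agent.Y157.PS Pool.Agent.Zk12.HT

namespace Pool.Agent.Zk90.HT

variable {κ R M : Type} [Field κ] [IsAlgClosed κ] [CharZero κ] [Field R] [Field M]
  [Algebra κ R] [Algebra R M] [Algebra κ M] [IsScalarTower κ R M] {x : R} {B : Finset κ} {Y : M}

lemma x_ne (h : Cov 2 κ R M x B Y) (l : κ) : algebraMap R M x - algebraMap κ M l ≠ 0 := by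
  intro h0
  have h1 : algebraMap R M x = algebraMap R M (algebraMap κ R l) := by
    rw [← IsScalarTower.algebraMap_apply κ R M]
    exact sub_eq_zero.1 h0
  have h2 : x = algebraMap κ R l := (algebraMap R M).injective h1
  refine h.rat.trans ?_
  rw [h2]
  exact isAlgebraic_algebraMap l

lemma ord_shift (V : Place κ M) {u : M} {n : ℤ} {a l : κ} (h : V.ord (u - algebraMap κ M a) = n)
    (hn : 0 < n) (hal : l ≠ a) : V.ord (u - algebraMap κ M l) = 0 := by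
  have h1 := V.ord_add_eq (f := algebraMap κ M (a - l)) (g := u - algebraMap κ M a)
    (algMap_ne (sub_ne_zero.2 hal.symm)) (ne_zero_of_ord (by rw [h]; exact hn.ne'))
    (by rw [V.ord_const (sub_ne_zero.2 hal.symm), h]; exact hn)
  have e : algebraMap κ M (a - l) + (u - algebraMap κ M a) = u - algebraMap κ M l := by
    rw [map_sub]; ring
  rw [e, V.ord_const (sub_ne_zero.2 hal.symm)] at h1
  exact h1.2

lemma ords (h : Cov 2 κ R M x B Y) (V : Place κ M) :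
    (∀ l ∈ B, V.ord (algebraMap R M x - algebraMap κ M l) = -1) ∨
      (∀ l ∈ B, (2 : ℤ) ∣ V.ord (algebraMap R M x - algebraMap κ M l)) := by
  rcases h.loc' V with ⟨e, he, h1, -⟩ | ⟨a, ha, h1⟩ | h1
  · right
    intro l hl
    by_cases hle : l = e
    · rw [hle, h1]
      norm_num
    · rw [ord_shift V h1 (by norm_num) hle]
      exact dvd_zero _
  · right
    intro l hl
    have hla : l ≠ a := by
      rintro rfl
      exact ha hl
    rw [ord_shift V h1 (by norm_num) hla]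
    exact dvd_zero _
  · left
    intro l hl
    by_cases hl0 : l = 0
    · rw [hl0, map_zero, sub_zero, h1]
    · have h2 := V.ord_add_eq (f := algebraMap R M x) (g := -algebraMap κ M l)
        (ne_zero_of_ord (by rw [h1]; norm_num)) (neg_ne_zero.2 (algMap_ne hl0))
        (by rw [V.ord_neg, V.ord_const hl0, h1]; norm_num)
      rw [← sub_eq_add_neg, h1] at h2
      exact h2.2

lemma base_eq (h : Cov 2 κ R M x B Y) {e l : κ} (hle : l ≠ e) :
    (algebraMap R M x - algebraMap κ M e)⁻¹ - algebraMap κ M (l - e)⁻¹ =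
      -(algebraMap R M x - algebraMap κ M l) /
        ((algebraMap R M x - algebraMap κ M e) * algebraMap κ M (l - e)) := by
  have h1 := x_ne h e
  have h2 : algebraMap κ M (l - e) ≠ 0 := algMap_ne (sub_ne_zero.2 hle)
  rw [map_inv₀]
  field_simp
  rw [map_sub]
  ring

lemma base_even (h : Cov 2 κ R M x B Y) {e l : κ} (he : e ∈ B) (hl : l ∈ B) (hle : l ≠ e)
    (V : Place κ M) : (2 : ℤ) ∣ V.ord
      ((algebraMap R M x - algebraMap κ M e)⁻¹ - algebraMap κ M (l - e)⁻¹) := by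
  have h1 := x_ne h e
  have h3 := x_ne h l
  have h2 : algebraMap κ M (l - e) ≠ 0 := algMap_ne (sub_ne_zero.2 hle)
  rw [base_eq h hle, V.ord_div (neg_ne_zero.2 h3) (mul_ne_zero h1 h2), V.ord_neg, V.ord_mul h1 h2,
    V.ord_const (sub_ne_zero.2 hle)]
  rcases ords h V with h4 | h4
  · rw [h4 l hl, h4 e he]
    norm_num
  · have h5 := h4 l hl
    have h6 := h4 e he
    omega

lemma base_ne (h : Cov 2 κ R M x B Y) {e l : κ} (hle : l ≠ e) :
    (algebraMap R M x - algebraMap κ M e)⁻¹ - algebraMap κ M (l - e)⁻¹ ≠ 0 := by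
  rw [base_eq h hle]
  exact div_ne_zero (neg_ne_zero.2 (x_ne h l))
    (mul_ne_zero (x_ne h e) (algMap_ne (sub_ne_zero.2 hle)))

/-- the state of the recursion -/
structure St (W : Place κ M) (G : (M ≃+* M) → Prop) (a b c : κ) (s : M × M × M × M) : Prop where
  ha : s.2.1 ^ 2 = s.1 - algebraMap κ M a
  hb : s.2.2.1 ^ 2 = s.1 - algebraMap κ M b
  hc : s.2.2.2 ^ 2 = s.1 - algebraMap κ M c
  pole : W.ord s.1 < 0
  r1 : Cl W (s.2.2.1 / s.2.1)
  r2 : Cl W (s.2.2.2 / s.2.1)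
  fix : ∀ τ : M ≃+* M, G τ → τ s.1 = s.1 ∧ τ s.2.1 = s.2.1 ∧ τ s.2.2.1 = s.2.2.1 ∧
    τ s.2.2.2 = s.2.2.2

omit [IsAlgClosed κ] in
lemma St.next (W : Place κ M)
    (root : ∀ g : M, g ≠ 0 → (∀ V : Place κ M, (2 : ℤ) ∣ V.ord g) → ∃ h : M, h ^ 2 = g)
    {G : (M ≃+* M) → Prop} (hG : ∀ τ, G τ → Fixes W τ) {a b c : κ} (hab : a ≠ b) (hbc : b ≠ c)
    (hac : a ≠ c) {s : M × M × M × M} (hs : St W G a b c s) :
    ∃ s' : M × M × M × M, St W G a b c s' ∧
      s'.1 = s.1 + s.2.1 * s.2.2.1 + s.2.2.1 * s.2.2.2 + s.2.2.2 * s.2.1 := by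
  obtain ⟨A, B, C, h1, h2, h3, h4, h5, h6, h7⟩ :=
    step W root hab hbc hac hs.ha hs.hb hs.hc hs.pole hs.r1 hs.r2
  refine ⟨⟨_, A, B, C⟩, ⟨h1, h2, h3, h4, h5, h6, ?_⟩, rfl⟩
  intro τ hτ
  obtain ⟨t0, t1, t2, t3⟩ := hs.fix τ hτ
  refine ⟨?_, h7 τ (hG τ hτ) t1 t2 t3⟩
  simp only [map_add, map_mul, t0, t1, t2, t3]

omit [IsAlgClosed κ] in
lemma St.seq (W : Place κ M)
    (root : ∀ g : M, g ≠ 0 → (∀ V : Place κ M, (2 : ℤ) ∣ V.ord g) → ∃ h : M, h ^ 2 = g)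
    {G : (M ≃+* M) → Prop} (hG : ∀ τ, G τ → Fixes W τ) {a b c : κ} (hab : a ≠ b) (hbc : b ≠ c)
    (hac : a ≠ c) {s : M × M × M × M} (hs : St W G a b c s) :
    ∃ f : ℕ → M × M × M × M, f 0 = s ∧ (∀ j, St W G a b c (f j)) ∧ ∀ j, (f (j + 1)).1 =
      (f j).1 + (f j).2.1 * (f j).2.2.1 + (f j).2.2.1 * (f j).2.2.2 + (f j).2.2.2 * (f j).2.1 := by
  have hn : ∀ t : {s : M × M × M × M // St W G a b c s}, ∃ t' : {s : M × M × M × M //
      St W G a b c s}, t'.1.1 = t.1.1 + t.1.2.1 * t.1.2.2.1 + t.1.2.2.1 * t.1.2.2.2 +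
        t.1.2.2.2 * t.1.2.1 := by
    rintro ⟨t, ht⟩
    obtain ⟨t', ht', e⟩ := ht.next W root hG hab hbc hac
    exact ⟨⟨t', ht'⟩, e⟩
  choose nx hnx using hn
  let F : ℕ → {s : M × M × M × M // St W G a b c s} := fun j => Nat.rec ⟨s, hs⟩ (fun _ t => nx t) j
  exact ⟨fun j => (F j).1, rfl, fun j => (F j).2, fun j => hnx (F j)⟩

/-- the group of the automorphisms -/
def Grp (W : Place κ M) (x : R) (B : Finset κ) (Y : M) (q : κ) (τ : M ≃+* M) : Prop :=
  ∃ σ : κ ≃+* κ, (∀ z, τ (algebraMap κ M z) = algebraMap κ M (σ z)) ∧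
    τ (algebraMap R M x) = algebraMap R M x ∧ Fixes W τ ∧ (∀ z ∈ B, σ z = z) ∧ σ q = q ∧ τ Y = Y

theorem base [DecidableEq κ] (h : Cov 2 κ R M x B Y) (W : Place κ M) {e : κ} (he : e ∈ B)
    (hW : 0 < W.ord (algebraMap R M x - algebraMap κ M e)) {q : κ}
    (hq : q ^ 2 = - ∏ e₁ ∈ B.erase e, (e₁ - e)) : ∃ z : κ → M,
      (∀ l ∈ B.erase e, z l ^ 2 =
        (algebraMap R M x - algebraMap κ M e)⁻¹ - algebraMap κ M (l - e)⁻¹) ∧
      (∀ l ∈ B.erase e, ∀ l' ∈ B.erase e, Cl W (z l / z l')) ∧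
      ∀ τ : M ≃+* M, Grp W x B Y q τ → ∀ l ∈ B.erase e, τ (z l) = z l := by
  set X := algebraMap R M x with hXd
  set ξ := (X - algebraMap κ M e)⁻¹ with hξ
  have hxe : X - algebraMap κ M e ≠ 0 := x_ne h e
  have hξ0 : ξ ≠ 0 := inv_ne_zero hxe
  have hξo : W.ord ξ < 0 := by
    rw [hξ, W.ord_inv]
    omega
  have hcardB : 2 ∣ B.card := h.dvd
  have h3 := h.three
  have hcard : (B.erase e).card = B.card - 1 := Finset.card_erase_of_mem he
  have hodd : Odd (B.erase e).card := by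
    obtain ⟨r, hr⟩ := hcardB
    exact ⟨r - 1, by omega⟩
  obtain ⟨e₁, he₁⟩ : (B.erase e).Nonempty := by
    rw [← Finset.card_pos]
    omega
  have hroot : ∀ l ∈ B.erase e, ∃ z : M, z ^ 2 = ξ - algebraMap κ M (l - e)⁻¹ := by
    intro l hl
    obtain ⟨hle, hlB⟩ := Finset.mem_erase.1 hl
    exact h.root _ (base_ne h hle) (fun V => base_even h he hlB hle V)
  obtain ⟨A, hA⟩ := hroot e₁ he₁
  have hv : ∀ l ∈ B.erase e, W.ord (ξ - algebraMap κ M (l - e)⁻¹) < 0 := by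
    intro l hl
    obtain ⟨hle, hlB⟩ := Finset.mem_erase.1 hl
    have hc : (l - e)⁻¹ ≠ 0 := inv_ne_zero (sub_ne_zero.2 hle)
    have h4 := W.ord_add_eq (f := ξ) (g := -algebraMap κ M (l - e)⁻¹) hξ0
      (neg_ne_zero.2 (algMap_ne hc)) (by rw [W.ord_neg, W.ord_const hc]; exact hξo)
    rw [← sub_eq_add_neg] at h4
    rw [h4.2]
    exact hξo
  have hA0 : A ≠ 0 := by
    rintro rfl
    refine base_ne h (Finset.mem_erase.1 he₁).1 ?_
    rw [← hξ, ← hA]
    ring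
  have hsgn : ∀ l ∈ B.erase e, ∃ z : M, z ^ 2 = ξ - algebraMap κ M (l - e)⁻¹ ∧ Cl W (z / A) := by
    intro l hl
    obtain ⟨z, hz⟩ := hroot l hl
    have h5 : Cl W (z ^ 2 / A ^ 2) := by
      have hv0 : ξ - algebraMap κ M (e₁ - e)⁻¹ ≠ 0 := base_ne h (Finset.mem_erase.1 he₁).1
      have e1 : z ^ 2 / A ^ 2 - 1 = (ξ - algebraMap κ M (e₁ - e)⁻¹)⁻¹ *
          algebraMap κ M ((e₁ - e)⁻¹ - (l - e)⁻¹) := by
        rw [hz, hA, map_sub]
        generalize algebraMap κ M (e₁ - e)⁻¹ = P at hv0 ⊢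
        generalize algebraMap κ M (l - e)⁻¹ = P'
        field_simp
        ring
      rw [Cl, e1]
      refine Sm.mul_reg (Or.inr ?_) (W.reg_const _)
      rw [W.ord_inv]
      have := hv e₁ he₁
      omega
    obtain ⟨z', hz', hz''⟩ := exists_sign hA0 h5
    exact ⟨z', by rw [hz', hz], hz''⟩
  choose! z hz hzA using hsgn
  have hz0 : ∀ l ∈ B.erase e, z l ≠ 0 := by
    intro l hl h0
    refine base_ne h (Finset.mem_erase.1 hl).1 ?_
    rw [← hξ, ← hz l hl, h0]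
    ring
  refine ⟨z, hz, ?_, ?_⟩
  · intro l hl l' hl'
    have e1 : z l / z l' = (z l / A) / (z l' / A) := by
      have := hz0 l' hl'
      field_simp
    rw [e1]
    have c1 : ∀ {u : M}, Cl W u → Sm W (u - algebraMap κ M 1) := by
      intro u hu
      rw [map_one]
      exact hu
    exact cl_div one_ne_zero (c1 (hzA l hl)) (c1 (hzA l' hl'))
  -- the product
  obtain ⟨r, hr⟩ := hcardB
  set Q : M := Y / ((X - algebraMap κ M e) ^ r * algebraMap κ M q) with hQ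
  have hq0 : q ≠ 0 := by
    rintro rfl
    have h5 : ∏ e₁ ∈ B.erase e, (e₁ - e) = 0 := by
      have : (0 : κ) ^ 2 = 0 := by ring
      rw [this] at hq
      exact neg_eq_zero.1 hq.symm
    obtain ⟨l, hl, hl0⟩ := Finset.prod_eq_zero_iff.1 h5
    exact (Finset.mem_erase.1 hl).1 (sub_eq_zero.1 hl0)
  have hPQ : (∏ l ∈ B.erase e, z l) ^ 2 = Q ^ 2 := by
    have e1 : (∏ l ∈ B.erase e, z l) ^ 2 =
        ∏ l ∈ B.erase e, (-(X - algebraMap κ M l) /
          ((X - algebraMap κ M e) * algebraMap κ M (l - e))) := by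
      rw [← Finset.prod_pow]
      refine Finset.prod_congr rfl fun l hl => ?_
      rw [hz l hl, hξ, base_eq h (Finset.mem_erase.1 hl).1]
    have e2 : ∏ l ∈ B.erase e, (-(X - algebraMap κ M l) /
          ((X - algebraMap κ M e) * algebraMap κ M (l - e))) =
        -(∏ l ∈ B.erase e, (X - algebraMap κ M l)) /
          ((X - algebraMap κ M e) ^ (B.erase e).card *
            algebraMap κ M (∏ l ∈ B.erase e, (l - e))) := by
      rw [Finset.prod_div_distrib, Finset.prod_mul_distrib, Finset.prod_const, map_prod]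
      congr 1
      rw [Finset.prod_neg, hodd.neg_one_pow]
      ring
    have e3 : (∏ l ∈ B.erase e, (l - e)) = -q ^ 2 := by rw [hq, neg_neg]
    have e4 : Y ^ 2 = (X - algebraMap κ M e) * ∏ l ∈ B.erase e, (X - algebraMap κ M l) := by
      rw [h.eqn, ← Finset.mul_prod_erase B _ he]
    rw [e1, e2, e3, hQ, div_pow, e4, mul_pow]
    have hqM : algebraMap κ M q ≠ 0 := algMap_ne hq0
    have e5 : ((X - algebraMap κ M e) ^ r) ^ 2 =
        (X - algebraMap κ M e) ^ (B.erase e).card * (X - algebraMap κ M e) := by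
      rw [← pow_mul, ← pow_succ]
      congr 1
      omega
    rw [e5, map_neg, map_pow]
    field_simp
  have hP0 : (∏ l ∈ B.erase e, z l) ≠ 0 := Finset.prod_ne_zero_iff.2 hz0
  rintro τ ⟨σ, s1, s2, s3, s4, s5, s6⟩
  have tc : ∀ l ∈ B, τ (algebraMap κ M l) = algebraMap κ M l := fun l hl => by rw [s1, s4 l hl]
  have tξ : τ ξ = ξ := by
    rw [hξ, map_inv₀, map_sub, s2, tc e he]
  have tsq : ∀ l ∈ B.erase e, τ (z l ^ 2) = z l ^ 2 := by
    intro l hl
    obtain ⟨hle, hlB⟩ := Finset.mem_erase.1 hl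
    rw [hz l hl, map_sub, tξ, map_inv₀, map_inv₀, map_sub, map_sub, tc l hlB, tc e he]
  have tA : τ (A ^ 2) = A ^ 2 := by
    rw [hA, ← hz e₁ he₁]
    exact tsq e₁ he₁
  have tQ : τ Q = Q := by
    rw [hQ, map_div₀, map_mul, map_pow, map_sub, s2, tc e he, s6, s1, s5]
  have tP : τ (∏ l ∈ B.erase e, z l) = ∏ l ∈ B.erase e, z l := by
    rcases sq_eq_sq_iff_eq_or_eq_neg.1 hPQ with h5 | h5
    · rw [h5, tQ]
    · rw [h5, map_neg, tQ]
  have trat : ∀ l ∈ B.erase e, τ (z l / A) = z l / A := fun l hl =>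
    fix_ratio hA0 (hzA l hl) s3 tA (tsq l hl)
  have hzl : ∀ l, z l = (z l / A) * A := fun l => by field_simp
  have key : τ A = A := by
    rcases sq_eq_sq_iff_eq_or_eq_neg.1 (by rw [← map_pow, tA] : τ A ^ 2 = A ^ 2) with h5 | h5
    · exact h5
    · exfalso
      have h6 : ∀ l ∈ B.erase e, τ (z l) = -z l := by
        intro l hl
        rw [hzl l, map_mul, trat l hl, h5]
        ring
      rw [map_prod, Finset.prod_congr rfl h6, Finset.prod_neg, hodd.neg_one_pow] at tP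
      have h7 : (2 : M) * (∏ l ∈ B.erase e, z l) = 0 := by linear_combination -tP
      have h8 : (2 : M) ≠ 0 := by
        have := algMap_ne (κ := κ) (M := M) (c := 2) two_ne_zero
        rwa [map_ofNat] at this
      exact (mul_ne_zero h8 hP0) h7
  intro l hl
  rw [hzl l, map_mul, trat l hl, key]

open scoped Classical in
theorem towA : Pool.Agent.Zk12.HT.S_TOWA := by
  intro κ R M _ _ _ _ _ _ _ _ _ x B Y h W e he hW
  obtain ⟨q, hq⟩ := IsAlgClosed.exists_pow_nat_eq (- ∏ e₁ ∈ B.erase e, (e₁ - e)) (n := 2)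
    (by norm_num)
  obtain ⟨z, hz, hzr, hzf⟩ := base h W he hW hq
  have h3 := h.three
  have hcard : 2 < (B.erase e).card := by
    rw [Finset.card_erase_of_mem he]
    obtain ⟨r, hr⟩ := h.dvd
    omega
  obtain ⟨e₁, m1, e₂, m2, e₃, m3, n12, n13, n23⟩ := Finset.two_lt_card.1 hcard
  have inj : ∀ {l l' : κ}, l ≠ l' → (l - e)⁻¹ ≠ (l' - e)⁻¹ := by
    intro l l' hll h0
    rw [inv_inj, sub_left_inj] at h0
    exact hll h0
  have root : ∀ g : M, g ≠ 0 → (∀ V : Place κ M, (2 : ℤ) ∣ V.ord g) → ∃ h : M, h ^ 2 = g :=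
    fun g hg hV => h.root g hg hV
  have s0 : St W (Grp W x B Y q) (e₁ - e)⁻¹ (e₂ - e)⁻¹ (e₃ - e)⁻¹
      ((algebraMap R M x - algebraMap κ M e)⁻¹, z e₁, z e₂, z e₃) := by
    refine ⟨hz _ m1, hz _ m2, hz _ m3, ?_, hzr _ m2 _ m1, hzr _ m3 _ m1, ?_⟩
    · change W.ord (algebraMap R M x - algebraMap κ M e)⁻¹ < 0
      rw [W.ord_inv]
      omega
    · intro τ hτ
      refine ⟨?_, hzf τ hτ _ m1, hzf τ hτ _ m2, hzf τ hτ _ m3⟩
      obtain ⟨σ, s1, s2, s3, s4, s5, s6⟩ := hτ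
      change τ (algebraMap R M x - algebraMap κ M e)⁻¹ = _
      rw [map_inv₀, map_sub, s2, s1, s4 e he]
  obtain ⟨f, f0, f1, f2⟩ := s0.seq W root (fun τ hτ => hτ.choose_spec.2.2.1) (inj n12) (inj n23)
    (inj n13)
  have mm : ∀ {l}, l ∈ B.erase e → l ∈ B ∧ l ≠ e := fun hl => ⟨(Finset.mem_erase.1 hl).2,
    (Finset.mem_erase.1 hl).1⟩
  refine ⟨(e₁ - e)⁻¹, (e₂ - e)⁻¹, (e₃ - e)⁻¹, q, fun j => (f j).1, fun j => (f j).2.1,
    fun j => (f j).2.2.1, fun j => (f j).2.2.2, inj n12, inj n23, inj n13,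
    ⟨e₁, (mm m1).1, (mm m1).2, rfl⟩, ⟨e₂, (mm m2).1, (mm m2).2, rfl⟩,
    ⟨e₃, (mm m3).1, (mm m3).2, rfl⟩, hq, ?_, ?_, ?_⟩
  · change (f 0).1 = _
    rw [f0]
  · intro j
    exact ⟨(f1 j).ha, (f1 j).hb, (f1 j).hc, f2 j⟩
  · intro τ σ t1 t2 t3 t4 t5 t6 j
    exact (f1 j).fix τ ⟨σ, t1, t2, t3, t4, t5, t6⟩

end Pool.Agent.Zk90.HT
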